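import Pool.Agent.J6H63.Cop.Stm

set_option autoImplicit false

open Finset Cop764 Filter Topology

namespace Pool.Agent.J6H63.Cop

lemma K_nonneg' (B : Base) (n : ℕ) : 0 ≤ B.K n := ENNReal.toReal_nonneg

/-- `β m^(β-1) ≤ m^β - (m-1)^β` for `0 < β < 1`, `m ≥ 1` -/
lemma rpow_step {β : ℝ} (hβ : 0 < β) (hβ1 : β < 1) {m : ℝ} (hm : 1 ≤ m) :
    (m - 1) ^ β ≤ m ^ β - β * m ^ (β - 1) := by
  have hm0 : 0 < m := by linarith
  have h1 : (1 + (-1 / m)) ^ β ≤ 1 + β * (-1 / m) :=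
    rpow_one_add_le_one_add_mul_self (by rw [le_div_iff₀ hm0]; linarith) hβ.le hβ1.le
  have h2 : m - 1 = m * (1 + (-1 / m)) := by field_simp; ring
  have h3 : 0 ≤ 1 + (-1 / m) := by
    have : 1 / m ≤ 1 := by rw [div_le_one hm0]; exact hm
    have h4 : -1 / m = -(1 / m) := by ring
    rw [h4]; linarith
  rw [h2, Real.mul_rpow hm0.le h3, Real.rpow_sub hm0, Real.rpow_one]
  calc m ^ β * (1 + (-1 / m)) ^ β ≤ m ^ β * (1 + β * (-1 / m)) :=
        mul_le_mul_of_nonneg_left h1 (Real.rpow_nonneg hm0.le _)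
    _ = m ^ β - β * (m ^ β / m) := by ring

/-- `α m^(-(1+α)) ≤ (m-1)^(-α) - m^(-α)` -/
lemma rpow_step' {α : ℝ} (hα : 0 < α) (hα1 : α < 1) {m : ℝ} (hm : 1 < m) :
    α * m ^ (-(1 + α)) ≤ (m - 1) ^ (-α) - m ^ (-α) := by
  have hm0 : 0 < m := by linarith
  have hm1 : 0 < m - 1 := by linarith
  have h1 := rpow_step hα hα1 hm.le
  have h2 : m ^ (α - 1) = m ^ α / m := by rw [Real.rpow_sub hm0, Real.rpow_one]
  rw [h2] at h1
  have hA : 0 < m ^ α := Real.rpow_pos_of_pos hm0 α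
  have hB : 0 < (m - 1) ^ α := Real.rpow_pos_of_pos hm1 α
  rw [Real.rpow_neg hm0.le, Real.rpow_neg hm1.le, Real.rpow_neg hm0.le, Real.rpow_add hm0,
    Real.rpow_one]
  have h3 : (m - 1) ^ α * (1 + α / m) ≤ m ^ α := by
    calc (m - 1) ^ α * (1 + α / m) ≤ (m ^ α - α * (m ^ α / m)) * (1 + α / m) :=
          mul_le_mul_of_nonneg_right h1 (by positivity)
      _ = m ^ α * (1 - (α / m) ^ 2) := by field_simp; ring
      _ ≤ m ^ α * 1 := mul_le_mul_of_nonneg_left (by nlinarith [sq_nonneg (α / m)]) hA.le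
      _ = m ^ α := mul_one _
  have h4 : (1 + α / m) / m ^ α ≤ 1 / (m - 1) ^ α := by
    rw [div_le_div_iff₀ hA hB]
    linarith
  have h5 : (1 + α / m) / m ^ α = (m ^ α)⁻¹ + α * (m * m ^ α)⁻¹ := by field_simp
  rw [h5, one_div] at h4
  linarith

lemma sum_low {α : ℝ} (hα : 0 < α) (hα1 : α < 1) (n : ℕ) :
    ∑ m ∈ Icc 1 n, (m : ℝ) ^ (-α) ≤ (n : ℝ) ^ (1 - α) / (1 - α) := by
  have hb : 0 < 1 - α := by linarith
  induction n with
  | zero => exact div_nonneg (Real.rpow_nonneg (by positivity) _) hb.le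
  | succ n ih =>
    rw [sum_Icc_succ_top (by omega)]
    have h1 := rpow_step (β := 1 - α) hb (by linarith) (m := ((n + 1 : ℕ) : ℝ)) (by
      push_cast
      have : (0 : ℝ) ≤ n := Nat.cast_nonneg n
      linarith)
    have h2 : ((n + 1 : ℕ) : ℝ) - 1 = n := by push_cast; ring
    have h3 : 1 - α - 1 = -α := by ring
    rw [h2, h3] at h1
    rw [le_div_iff₀ hb] at ih ⊢
    linarith

lemma sum_high {α : ℝ} (hα : 0 < α) (hα1 : α < 1) {t : ℕ} (ht : 1 ≤ t) (n : ℕ) (hn : t ≤ n) :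
    ∑ m ∈ Icc (t + 1) n, (m : ℝ) ^ (-(1 + α)) ≤ ((t : ℝ) ^ (-α) - (n : ℝ) ^ (-α)) / α := by
  induction n, hn using Nat.le_induction with
  | base =>
    rw [Icc_eq_empty (by omega), sum_empty, sub_self, zero_div]
  | succ n hn ih =>
    rw [sum_Icc_succ_top (by omega)]
    have h1 := rpow_step' hα hα1 (m := ((n + 1 : ℕ) : ℝ)) (by
      push_cast
      have : (1 : ℝ) ≤ n := by exact_mod_cast ht.trans hn
      linarith)
    have h2 : ((n + 1 : ℕ) : ℝ) - 1 = n := by push_cast; ring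
    rw [h2] at h1
    rw [le_div_iff₀ hα] at ih ⊢
    linarith

lemma K_le (B : Base) : ∃ C : ℝ, 0 < C ∧ ∀ m : ℕ, 1 ≤ m → B.K m ≤ C * (m : ℝ) ^ (-(1 + B.α)) := by
  obtain ⟨C, hC⟩ := B.htail.bddAbove_range
  refine ⟨max C 1, lt_max_of_lt_right one_pos, fun m hm => ?_⟩
  have h1 : (m : ℝ) ^ (1 + B.α) * (B.κ m).toReal ≤ C := hC ⟨m, rfl⟩
  have hm0 : (0 : ℝ) < m := by exact_mod_cast hm
  have h2 : 0 < (m : ℝ) ^ (1 + B.α) := Real.rpow_pos_of_pos hm0 _
  rw [Real.rpow_neg hm0.le, ← div_eq_mul_inv, le_div_iff₀ h2, mul_comm]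
  exact h1.trans (le_max_left _ _)

/-- MODULE KMIN -/
theorem t_kmin : KminT := by
  intro B
  obtain ⟨C, hC, hK⟩ := K_le B
  have hα := B.hα
  have hα1 := B.hα1
  have hb : 0 < 1 - B.α := by linarith
  refine ⟨C * (1 / (1 - B.α) + 2 / B.α), by positivity, fun T hT R => ?_⟩
  have hT0 : 0 < T := by linarith
  set t : ℕ := ⌊T⌋₊ with ht
  have ht1 : 1 ≤ t := Nat.le_floor (by simpa using hT)
  have htT : (t : ℝ) ≤ T := Nat.floor_le hT0.le
  have htT' : T < t + 1 := Nat.lt_floor_add_one T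
  have ht1R : (1 : ℝ) ≤ t := by exact_mod_cast ht1
  -- pointwise
  have hpt : ∀ m ∈ Icc 1 R, B.K m * min ((m : ℝ) / T) 1 ≤
      C * ((if m ≤ t then (m : ℝ) ^ (-B.α) / T else 0) +
        if t + 1 ≤ m then (m : ℝ) ^ (-(1 + B.α)) else 0) := by
    intro m hm
    rw [mem_Icc] at hm
    have hm0 : (0 : ℝ) < m := by exact_mod_cast hm.1
    have h1 := hK m hm.1
    have h0 := K_nonneg' B m
    by_cases h : m ≤ t
    · rw [if_pos h, if_neg (by omega), add_zero]
      calc B.K m * min ((m : ℝ) / T) 1 ≤ (C * (m : ℝ) ^ (-(1 + B.α))) * (m / T) :=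
            mul_le_mul h1 (min_le_left _ _) (by positivity) (h0.trans h1)
        _ = C * ((m : ℝ) ^ (-B.α) / T) := by
            have : (m : ℝ) ^ (-B.α) = (m : ℝ) ^ (-(1 + B.α)) * m := by
              rw [← Real.rpow_add_one hm0.ne']
              congr 1
              ring
            rw [this]
            ring
    · rw [if_neg h, if_pos (by omega), zero_add]
      calc B.K m * min ((m : ℝ) / T) 1 ≤ (C * (m : ℝ) ^ (-(1 + B.α))) * 1 :=
            mul_le_mul h1 (min_le_right _ _) (by positivity) (h0.trans h1)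
        _ = C * (m : ℝ) ^ (-(1 + B.α)) := mul_one _
  refine (sum_le_sum hpt).trans ?_
  rw [← mul_sum, sum_add_distrib, mul_assoc]
  refine mul_le_mul_of_nonneg_left ?_ hC.le
  have hTa : 0 < T ^ (-B.α) := Real.rpow_pos_of_pos hT0 _
  have hA : ∑ m ∈ Icc 1 R, (if m ≤ t then (m : ℝ) ^ (-B.α) / T else 0) ≤
      1 / (1 - B.α) * T ^ (-B.α) := by
    rw [← sum_filter]
    calc ∑ m ∈ (Icc 1 R).filter (fun m => m ≤ t), (m : ℝ) ^ (-B.α) / T
        ≤ ∑ m ∈ Icc 1 t, (m : ℝ) ^ (-B.α) / T := by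
          refine sum_le_sum_of_subset_of_nonneg ?_ fun m _ _ => by positivity
          intro m hm
          rw [mem_filter, mem_Icc] at hm
          rw [mem_Icc]
          omega
      _ = (∑ m ∈ Icc 1 t, (m : ℝ) ^ (-B.α)) / T := by rw [sum_div]
      _ ≤ ((t : ℝ) ^ (1 - B.α) / (1 - B.α)) / T :=
          div_le_div_of_nonneg_right (sum_low hα hα1 t) hT0.le
      _ ≤ (T ^ (1 - B.α) / (1 - B.α)) / T := by
          refine div_le_div_of_nonneg_right (div_le_div_of_nonneg_right ?_ hb.le) hT0.le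
          exact Real.rpow_le_rpow (by positivity) htT hb.le
      _ = 1 / (1 - B.α) * T ^ (-B.α) := by
          have : T ^ (1 - B.α) = T * T ^ (-B.α) := by
            rw [sub_eq_add_neg, Real.rpow_add hT0, Real.rpow_one]
          rw [this]
          field_simp
  have hB : ∑ m ∈ Icc 1 R, (if t + 1 ≤ m then (m : ℝ) ^ (-(1 + B.α)) else 0) ≤
      2 / B.α * T ^ (-B.α) := by
    rw [← sum_filter]
    have h1 : (Icc 1 R).filter (fun m => t + 1 ≤ m) ⊆ Icc (t + 1) (max t R) := by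
      intro m hm
      rw [mem_filter, mem_Icc] at hm
      rw [mem_Icc]
      omega
    calc ∑ m ∈ (Icc 1 R).filter (fun m => t + 1 ≤ m), (m : ℝ) ^ (-(1 + B.α))
        ≤ ∑ m ∈ Icc (t + 1) (max t R), (m : ℝ) ^ (-(1 + B.α)) :=
          sum_le_sum_of_subset_of_nonneg h1 fun m _ _ => by positivity
      _ ≤ ((t : ℝ) ^ (-B.α) - ((max t R : ℕ) : ℝ) ^ (-B.α)) / B.α :=
          sum_high hα hα1 ht1 _ (le_max_left _ _)
      _ ≤ (t : ℝ) ^ (-B.α) / B.α := by
          refine div_le_div_of_nonneg_right ?_ hα.le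
          have : 0 ≤ ((max t R : ℕ) : ℝ) ^ (-B.α) := by positivity
          linarith
      _ ≤ (2 * T ^ (-B.α)) / B.α := by
          refine div_le_div_of_nonneg_right ?_ hα.le
          have h2 : T / 2 ≤ t := by linarith
          calc (t : ℝ) ^ (-B.α) ≤ (T / 2) ^ (-B.α) :=
                Real.rpow_le_rpow_of_nonpos (by positivity) h2 (by linarith)
            _ = 2 ^ B.α * T ^ (-B.α) := by
                rw [Real.div_rpow hT0.le (by norm_num), Real.rpow_neg (by norm_num : (0:ℝ) ≤ 2)]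
                field_simp
            _ ≤ 2 * T ^ (-B.α) := by
                refine mul_le_mul_of_nonneg_right ?_ hTa.le
                calc (2 : ℝ) ^ B.α ≤ 2 ^ (1 : ℝ) :=
                      Real.rpow_le_rpow_of_exponent_le (by norm_num) hα1.le
                  _ = 2 := Real.rpow_one 2
      _ = 2 / B.α * T ^ (-B.α) := by ring
  rw [add_mul]
  exact add_le_add hA hB

/-- MODULE KLOW -/
theorem t_klow : KlowT := by
  intro B a b ha hab
  have hα := B.hα
  have hc := B.hcK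
  have hb : 0 < b := ha.trans hab
  have hd : 0 < b - a := by linarith
  have hev := B.htail.eventually (lt_mem_nhds (show B.cK / 2 < B.cK by linarith))
  obtain ⟨m0, hm0⟩ := eventually_atTop.1 hev
  refine ⟨(b - a) / 2 * (B.cK / 2 * b ^ (-(1 + B.α))), max (max ((m0 + 1) / a) (1 / a)) (2 / (b - a)),
    by positivity, fun T hT R hR => ?_⟩
  have hT1 : (m0 + 1) / a ≤ T := ((le_max_left _ _).trans (le_max_left _ _)).trans hT
  have hT2 : 2 / (b - a) ≤ T := (le_max_right _ _).trans hT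
  rw [div_le_iff₀ ha] at hT1
  rw [div_le_iff₀ hd] at hT2
  have hT0 : 0 < T := by
    by_contra h
    push Not at h
    have := mul_nonpos_of_nonpos_of_nonneg h hd.le
    linarith
  have haT : 0 < T * a := by positivity
  have hlow : ∀ m ∈ (Icc 1 R).filter (fun m : ℕ => a * T ≤ (m : ℝ) ∧ (m : ℝ) ≤ b * T),
      B.cK / 2 * (b * T) ^ (-(1 + B.α)) ≤ B.K m := by
    intro m hm
    rw [mem_filter, mem_Icc] at hm
    obtain ⟨⟨h1, -⟩, h2, h3⟩ := hm
    have hm00 : (0 : ℝ) < m := by exact_mod_cast h1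
    have h4 : m0 ≤ m := by
      have : (m0 : ℝ) ≤ m := by linarith
      exact_mod_cast this
    have h5 := hm0 m h4
    have h6 : 0 < (m : ℝ) ^ (1 + B.α) := Real.rpow_pos_of_pos hm00 _
    have h7 : B.cK / 2 * (m : ℝ) ^ (-(1 + B.α)) ≤ B.K m := by
      rw [Real.rpow_neg hm00.le, ← div_eq_mul_inv, div_le_iff₀ h6, mul_comm (B.K m)]
      exact h5.le
    refine le_trans (mul_le_mul_of_nonneg_left ?_ (by positivity)) h7
    exact Real.rpow_le_rpow_of_nonpos hm00 h3 (by linarith)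
  have hcard : (b - a) * T - 1 ≤
      (((Icc 1 R).filter (fun m : ℕ => a * T ≤ (m : ℝ) ∧ (m : ℝ) ≤ b * T)).card : ℝ) := by
    have hsub : Icc ⌈a * T⌉₊ ⌊b * T⌋₊ ⊆
        (Icc 1 R).filter (fun m : ℕ => a * T ≤ (m : ℝ) ∧ (m : ℝ) ≤ b * T) := by
      intro m hm
      rw [mem_Icc] at hm
      have h1 : a * T ≤ m := Nat.ceil_le.1 hm.1
      have h2 : (m : ℝ) ≤ b * T := (Nat.le_floor_iff (by positivity)).1 hm.2
      have h3 : (0 : ℝ) < m := by linarith
      have h4 : (m : ℝ) ≤ R := h2.trans hR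
      rw [mem_filter, mem_Icc]
      exact ⟨⟨by exact_mod_cast h3, by exact_mod_cast h4⟩, h1, h2⟩
    have h5 := card_le_card hsub
    rw [Nat.card_Icc] at h5
    have h6 : ((⌊b * T⌋₊ + 1 : ℕ) : ℝ) ≤
        (((Icc 1 R).filter (fun m : ℕ => a * T ≤ (m : ℝ) ∧ (m : ℝ) ≤ b * T)).card : ℝ) +
          (⌈a * T⌉₊ : ℝ) := by
      have : ⌊b * T⌋₊ + 1 ≤
        ((Icc 1 R).filter (fun m : ℕ => a * T ≤ (m : ℝ) ∧ (m : ℝ) ≤ b * T)).card + ⌈a * T⌉₊ := by
        omega
      exact_mod_cast this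
    have h7 := Nat.lt_floor_add_one (b * T)
    have h8 := Nat.ceil_lt_add_one (show 0 ≤ a * T by positivity)
    push_cast at h6
    linarith
  have h1 := card_nsmul_le_sum _ _ _ hlow
  refine le_trans ?_ h1
  rw [nsmul_eq_mul]
  have hP : 0 ≤ B.cK / 2 * (b * T) ^ (-(1 + B.α)) := by positivity
  refine le_trans ?_ (mul_le_mul_of_nonneg_right hcard hP)
  have h2 : (b - a) / 2 * T ≤ (b - a) * T - 1 := by linarith
  refine le_trans (le_of_eq ?_) (mul_le_mul_of_nonneg_right h2 hP)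
  rw [Real.mul_rpow hb.le hT0.le]
  have h3 : T ^ (-B.α) = T * T ^ (-(1 + B.α)) := by
    rw [mul_comm, ← Real.rpow_add_one hT0.ne']
    congr 1
    ring
  rw [h3]
  ring

end Pool.Agent.J6H63.Cop
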