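import Pool.Agent.J6H63.Cop.Stm

set_option autoImplicit false

open Finset Cop764

namespace Pool.Agent.J6H63.Cop

lemma phi_nonneg' (w : ℕ → ℝ) (a b : ℕ) : 0 ≤ phi w a b := by
  unfold phi
  positivity

lemma G_nonneg' {K w : ℕ → ℝ} (hK : ∀ n, 0 ≤ K n) (j : ℕ) : ∀ d i : ℕ, j - i ≤ d → 0 ≤ G K w i j := by
  intro d
  induction d with
  | zero =>
    intro i hi
    rw [G_eq]
    split_ifs with h
    · exact zero_le_one
    · have : Ioc i j = ∅ := Finset.Ioc_eq_empty (by omega)
      rw [this, sum_empty]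
  | succ d ih =>
    intro i hi
    rw [G_eq]
    split_ifs with h
    · exact zero_le_one
    · refine sum_nonneg fun k hk => ?_
      rw [mem_Ioc] at hk
      exact mul_nonneg (mul_nonneg (hK _) (phi_nonneg' w i k)) (ih k (by omega))

/-- weight of a word started at `a` -/
noncomputable def Bwa (w : ℕ → ℝ) (a : ℕ) {M : ℕ} (n : Fin M → ℕ) : ℝ :=
  ∏ i, phi w (a + st n i) (a + st n i + n i)

lemma Bwa_zero (w : ℕ → ℝ) {M : ℕ} (n : Fin M → ℕ) : Bwa w 0 n = Bw w n := by
  simp only [Bwa, Bw, zero_add]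

lemma st_cons_zero {M : ℕ} (k : ℕ) (m : Fin M → ℕ) : st (Fin.cons k m : Fin (M + 1) → ℕ) 0 = 0 := by
  unfold st
  have : Iio (0 : Fin (M + 1)) = ∅ := by
    ext x
    simp
  rw [this, sum_empty]

lemma st_cons_succ {M : ℕ} (k : ℕ) (m : Fin M → ℕ) (i : Fin M) :
    st (Fin.cons k m : Fin (M + 1) → ℕ) i.succ = k + st m i := by
  unfold st
  have : Iio i.succ = insert 0 ((Iio i).map (Fin.succEmb M)) := by
    ext x
    refine Fin.cases ?_ (fun j => ?_) x
    · simp
    · simp only [mem_Iio, mem_insert, mem_map, Fin.coe_succEmb, Fin.succ_lt_succ_iff]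
      constructor
      · intro h
        exact Or.inr ⟨j, h, rfl⟩
      · rintro (h | ⟨j', h, h'⟩)
        · exact absurd h (Fin.succ_ne_zero j)
        · rw [Fin.succ_inj] at h'
          exact h' ▸ h
  rw [this, sum_insert, sum_map]
  · simp
  · simp

lemma Bwa_cons (w : ℕ → ℝ) (a : ℕ) {M : ℕ} (k : ℕ) (m : Fin M → ℕ) :
    Bwa w a (Fin.cons k m : Fin (M + 1) → ℕ) = phi w a (a + k) * Bwa w (a + k) m := by
  unfold Bwa
  rw [Fin.prod_univ_succ, st_cons_zero, add_zero, Fin.cons_zero]
  congr 1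
  refine prod_congr rfl fun i _ => ?_
  rw [st_cons_succ, Fin.cons_succ, add_assoc a k]

lemma word_step {K : ℕ → ℝ} (w : ℕ → ℝ) (hK : ∀ n, 0 ≤ K n) (R N : ℕ) : ∀ M a : ℕ,
    ∑ n ∈ (wds M R) with a + ∑ i, n i ≤ N, (∏ i, K (n i)) * Bwa w a n * G K w (a + ∑ i, n i) N
      ≤ G K w a N := by
  intro M
  induction M with
  | zero =>
    intro a
    have hG := G_nonneg' (w := w) hK N (N - a) a le_rfl
    by_cases h : a ≤ N
    · refine le_of_eq ?_
      have : (wds 0 R).filter (fun n => a + ∑ i, n i ≤ N) = {default} := by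
        ext n
        have hn : n = default := Subsingleton.elim n default
        have hw : n ∈ wds 0 R := by
          unfold wds
          rw [Fintype.mem_piFinset]
          exact fun i => i.elim0
        simp only [mem_filter, mem_singleton, hn, iff_true]
        rw [hn] at hw
        refine ⟨hw, ?_⟩
        simpa using h
      rw [this, sum_singleton]
      simp [Bwa]
    · have : (wds 0 R).filter (fun n => a + ∑ i, n i ≤ N) = ∅ := by
        ext n
        simp [h]
      rw [this, sum_empty]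
      exact hG
  | succ M ih =>
    intro a
    have e1 : ∑ n ∈ (wds (M + 1) R) with a + ∑ i, n i ≤ N,
        (∏ i, K (n i)) * Bwa w a n * G K w (a + ∑ i, n i) N =
        ∑ k ∈ Icc 1 R, K k * phi w a (a + k) * ∑ m ∈ (wds M R) with (a + k) + ∑ i, m i ≤ N,
          (∏ i, K (m i)) * Bwa w (a + k) m * G K w ((a + k) + ∑ i, m i) N := by
      have e2 : ∑ n ∈ (wds (M + 1) R) with a + ∑ i, n i ≤ N,
          (∏ i, K (n i)) * Bwa w a n * G K w (a + ∑ i, n i) N =
          ∑ p ∈ (Icc 1 R ×ˢ wds M R) with (a + p.1) + ∑ i, p.2 i ≤ N,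
            K p.1 * phi w a (a + p.1) * ((∏ i, K (p.2 i)) * Bwa w (a + p.1) p.2 *
              G K w ((a + p.1) + ∑ i, p.2 i) N) := by
        symm
        refine sum_equiv (Fin.consEquiv (fun _ => ℕ)) ?_ ?_
        · rintro ⟨k, m⟩
          simp only [mem_filter, mem_product, wds, Fintype.mem_piFinset, Fin.consEquiv_apply,
            Fin.forall_fin_succ, Fin.cons_zero, Fin.cons_succ, Fin.sum_univ_succ, add_assoc]
        · rintro ⟨k, m⟩ _
          change _ = (∏ i, K ((Fin.cons k m : Fin (M + 1) → ℕ) i)) *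
            Bwa w a (Fin.cons k m : Fin (M + 1) → ℕ) *
            G K w (a + ∑ i, (Fin.cons k m : Fin (M + 1) → ℕ) i) N
          rw [Bwa_cons, Fin.prod_univ_succ, Fin.sum_univ_succ]
          simp only [Fin.cons_zero, Fin.cons_succ, ← add_assoc]
          ring
      rw [e2, sum_filter, sum_product]
      refine sum_congr rfl fun k _ => ?_
      rw [mul_sum, sum_filter]
    rw [e1]
    have h2 : ∀ k ∈ Icc 1 R, K k * phi w a (a + k) * ∑ m ∈ (wds M R) with (a + k) + ∑ i, m i ≤ N,
          (∏ i, K (m i)) * Bwa w (a + k) m * G K w ((a + k) + ∑ i, m i) N ≤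
        if a + k ≤ N then K k * phi w a (a + k) * G K w (a + k) N else 0 := by
      intro k hk
      split_ifs with h
      · exact mul_le_mul_of_nonneg_left (ih (a + k)) (mul_nonneg (hK k) (phi_nonneg' _ _ _))
      · have : (wds M R).filter (fun m => (a + k) + ∑ i, m i ≤ N) = ∅ := by
          ext m
          simp only [mem_filter, notMem_empty, iff_false, not_and, not_le]
          intro _
          omega
        rw [this, sum_empty, mul_zero]
    refine (sum_le_sum h2).trans ?_
    rw [← sum_filter]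
    by_cases h : a = N
    · have : (Icc 1 R).filter (fun k => a + k ≤ N) = ∅ := by
        ext k
        simp only [mem_filter, mem_Icc, notMem_empty, iff_false, not_and, not_le]
        intro h1
        omega
      rw [this, sum_empty]
      exact G_nonneg' hK N (N - a) a le_rfl
    · rw [G_eq K w a N, if_neg h]
      have e3 : ∑ k ∈ (Icc 1 R).filter (fun k => a + k ≤ N), K k * phi w a (a + k) * G K w (a + k) N =
          ∑ k ∈ ((Icc 1 R).filter (fun k => a + k ≤ N)).map (addLeftEmbedding a),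
            K (k - a) * phi w a k * G K w k N := by
        rw [sum_map]
        refine sum_congr rfl fun k _ => ?_
        rw [addLeftEmbedding_apply, Nat.add_sub_cancel_left]
      rw [e3]
      refine sum_le_sum_of_subset_of_nonneg ?_ ?_
      · intro x hx
        rw [mem_map] at hx
        obtain ⟨k, hk, rfl⟩ := hx
        rw [mem_filter, mem_Icc] at hk
        rw [addLeftEmbedding_apply, mem_Ioc]
        omega
      · intro k _ _
        exact mul_nonneg (mul_nonneg (hK _) (phi_nonneg' _ _ _)) (G_nonneg' hK N (N - k) k le_rfl)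

/-- MODULE WORD -/
theorem t_word : WordT := by
  intro K w hK M R N
  have h0 : ∀ σ : Equiv.Perm (Fin M),
      ∑ n ∈ (wds M R) with ∑ i, n i ≤ N, (∏ i, K (n i)) * Bw w (n ∘ σ) * G K w (∑ i, n i) N
        ≤ G K w 0 N := by
    intro σ
    refine le_trans (le_of_eq ?_) (word_step w hK R N M 0)
    refine sum_equiv (Equiv.arrowCongr σ.symm (Equiv.refl ℕ)) ?_ ?_
    · intro n
      have e : (Equiv.arrowCongr σ.symm (Equiv.refl ℕ)) n = n ∘ σ := rfl
      rw [e]
      simp only [mem_filter, wds, Fintype.mem_piFinset, Function.comp_apply, zero_add,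
        Equiv.sum_comp σ n]
      refine and_congr_left fun _ => ⟨fun h i => h _, fun h i => ?_⟩
      have := h (σ.symm i)
      rwa [Equiv.apply_symm_apply] at this
    · intro n _
      have e : (Equiv.arrowCongr σ.symm (Equiv.refl ℕ)) n = n ∘ σ := rfl
      rw [e, Bwa_zero]
      simp only [Function.comp_apply, zero_add, Equiv.sum_comp σ n,
        Equiv.prod_comp σ (fun i => K (n i))]
  have h1 : ∑ n ∈ (wds M R) with ∑ i, n i ≤ N, (∏ i, K (n i)) * Bs w n * G K w (∑ i, n i) N =
      (M.factorial : ℝ)⁻¹ * ∑ σ : Equiv.Perm (Fin M),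
        ∑ n ∈ (wds M R) with ∑ i, n i ≤ N,
          (∏ i, K (n i)) * Bw w (n ∘ σ) * G K w (∑ i, n i) N := by
    rw [sum_comm, mul_sum]
    refine sum_congr rfl fun n _ => ?_
    unfold Bs
    rw [← sum_mul, ← mul_sum]
    ring
  rw [h1]
  have h2 : (0 : ℝ) < M.factorial := by exact_mod_cast Nat.factorial_pos M
  calc (M.factorial : ℝ)⁻¹ * ∑ σ : Equiv.Perm (Fin M),
        ∑ n ∈ (wds M R) with ∑ i, n i ≤ N,
          (∏ i, K (n i)) * Bw w (n ∘ σ) * G K w (∑ i, n i) N
      ≤ (M.factorial : ℝ)⁻¹ * ∑ _σ : Equiv.Perm (Fin M), G K w 0 N :=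
        mul_le_mul_of_nonneg_left (sum_le_sum fun σ _ => h0 σ) (inv_nonneg.2 h2.le)
    _ = G K w 0 N := by
        rw [sum_const, card_univ, Fintype.card_perm, Fintype.card_fin, nsmul_eq_mul]
        field_simp

end Pool.Agent.J6H63.Cop
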